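import Pool.Agent.Helper45.CF.GoalsC

/-!
# Packet CF2-ZQ (project CAR FIELDS stage 2, MP_d97caa_an): the Hilbert cube
-/

open scoped ComplexOrder ZeroAtInfty Topology ComplexConjugate NNReal
open TopologicalSpace

namespace Pool.Agent.Helper27.CF2

open Pool.Agent.Helper34.CAR Pool.Agent.Helper39.CR Pool.Agent.Helper45.CF

noncomputable section

/-- The Hilbert cube. -/
abbrev HQ : Type := ℕ → unitInterval

/-- Multiplication by `t` on the Hilbert cube. -/
def sc (t : unitInterval) : C(HQ, HQ) where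
  toFun x := fun n => t * x n
  continuous_toFun := by fun_prop

/-- Evaluation at a point. -/
def evh {Z : Type} [TopologicalSpace Z] [CompactSpace Z] (z : Z) : C(Z, ℂ) →⋆ₙₐ[ℂ] ℂ where
  toFun f := f z
  map_smul' _ _ := rfl
  map_zero' := rfl
  map_add' _ _ := rfl
  map_mul' _ _ := rfl
  map_star' _ := rfl

/-- Constant functions. -/
def csh (Z : Type) [TopologicalSpace Z] [CompactSpace Z] : ℂ →⋆ₙₐ[ℂ] C(Z, ℂ) where
  toFun a := ContinuousMap.const Z a
  map_smul' _ _ := rfl
  map_zero' := rfl
  map_add' _ _ := rfl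
  map_mul' _ _ := rfl
  map_star' _ := rfl

theorem zq : S_ZQ := by
  intro T i x
  let h : unitInterval → (C(HQ, ℂ) →⋆ₙₐ[ℂ] C(HQ, ℂ)) := fun t => pull ℂ (sc t)
  have hc : ∀ a, Continuous fun t => h t a := by
    intro a
    let F : C(unitInterval × HQ, ℂ) :=
      ⟨fun p => a (fun n => p.1 * p.2 n), by
        refine a.continuous.comp ?_
        fun_prop⟩
    have : (fun t => h t a) = fun t => F.curry t := by
      funext t
      ext y
      rfl
    rw [this]
    exact F.curry.continuous
  have h1 : h 1 = NonUnitalStarAlgHom.id ℂ C(HQ, ℂ) := by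
    refine DFunLike.ext _ _ fun a => ?_
    ext y
    show a (fun n => 1 * y n) = a y
    congr 1
    funext n
    exact one_mul (y n)
  have h0 : h 0 = (csh HQ).comp (evh (fun _ => (0 : unitInterval))) := by
    refine DFunLike.ext _ _ fun a => ?_
    ext y
    show a (fun n => 0 * y n) = a (fun _ => 0)
    congr 1
    funext n
    exact zero_mul (y n)
  have hh := T.homotopy i C(HQ, ℂ) C(HQ, ℂ) h hc
  calc x = T.map i (NonUnitalStarAlgHom.id ℂ C(HQ, ℂ)) x := (T.map_id i C(HQ, ℂ) x).symm
    _ = T.map i (h 1) x := by rw [h1]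
    _ = T.map i (h 0) x := by rw [hh]
    _ = T.map i (evh (fun _ => (0 : unitInterval))) (T.map i (csh HQ) x) := by
        rw [h0, T.map_comp]
    _ = 0 := by rw [T.point i (T.map i (csh HQ) x), map_zero]

end

end Pool.Agent.Helper27.CF2
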